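import Mathlib
import Pool.Agent.H43.G.R_seed8.H300R2.BH.Defs
import Pool.Agent.H43.G.R_seed8.H705R2.Major
import Pool.Agent.H43.G.R_seed8.H705R2.MLogF

set_option autoImplicit false

/-! Task T11: Fourier coefficients of the Moebius and Liouville functions near rationals. -/

namespace Pool.Agent.H534R2.BH

open Finset
open Pool.Agent.H469R2.NK (e)

/-- uniqueness of the square part -/
theorem sq_unique {m c b a : ℕ} (hm : m ≠ 0) (hb : b ≠ 0) (hc : Squarefree c) (ha : Squarefree a)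
    (h : m ^ 2 * c = b ^ 2 * a) : m = b := by
  apply Nat.eq_of_factorization_eq hm hb
  intro p
  have h1 := congrArg (fun n : ℕ => n.factorization p) h
  beta_reduce at h1
  rw [Nat.factorization_mul (pow_ne_zero _ hm) hc.ne_zero,
    Nat.factorization_mul (pow_ne_zero _ hb) ha.ne_zero, Nat.factorization_pow,
    Nat.factorization_pow] at h1
  simp only [Finsupp.coe_add, Finsupp.coe_smul, Pi.add_apply, Pi.smul_apply, smul_eq_mul] at h1
  have h2 := hc.natFactorization_le_one p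
  have h3 := ha.natFactorization_le_one p
  omega

/-- the Liouville function as a sum of values of the Moebius function -/
theorem lam_eq (x n : ℕ) (hn : n ∈ Icc 1 x) :
    ((-1 : ℂ) ^ (ArithmeticFunction.cardFactors n)) =
      ∑ m ∈ Icc 1 x, if m ^ 2 ∣ n then ((ArithmeticFunction.moebius (n / m ^ 2) : ℤ) : ℂ)
        else 0 := by
  rw [Finset.mem_Icc] at hn
  obtain ⟨a, b, hab, ha⟩ := Nat.sq_mul_squarefree n
  have hb0 : b ≠ 0 := by
    rintro rfl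
    simp at hab
    omega
  have hbn : b ≤ n := by
    rw [← hab]
    have : 0 < a := Nat.pos_of_ne_zero ha.ne_zero
    nlinarith [Nat.pos_of_ne_zero hb0]
  have hdiv : n / b ^ 2 = a := by
    rw [← hab]
    exact Nat.mul_div_cancel_left a (by positivity)
  rw [Finset.sum_eq_single b]
  · rw [if_pos ⟨a, hab.symm⟩, hdiv, ArithmeticFunction.moebius_apply_of_squarefree ha, ← hab,
      ArithmeticFunction.cardFactors_mul (pow_ne_zero _ hb0) ha.ne_zero,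
      ArithmeticFunction.cardFactors_pow, pow_add, pow_mul]
    norm_num
  · intro m hm hmb
    rw [Finset.mem_Icc] at hm
    split_ifs with hd
    · obtain ⟨c, hc⟩ := hd
      have hm0 : m ≠ 0 := by omega
      have h1 : n / m ^ 2 = c := by
        rw [hc]
        exact Nat.mul_div_cancel_left c (by positivity)
      rw [h1]
      have h2 : ¬ Squarefree c := by
        intro hs
        exact hmb (sq_unique hm0 hb0 hs ha (hc ▸ hab.symm))
      rw [ArithmeticFunction.moebius_eq_zero_of_not_squarefree h2]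
      simp
    · rfl
  · intro hb
    exact absurd (Finset.mem_Icc.2 ⟨Nat.pos_of_ne_zero hb0, hbn.trans hn.2⟩) hb

/-- splitting off squares -/
theorem lam_sum (x : ℕ) (f : ℕ → ℂ) :
    ∑ n ∈ Icc 1 x, ((-1 : ℂ) ^ (ArithmeticFunction.cardFactors n)) * f n =
      ∑ m ∈ Icc 1 x, ∑ l ∈ Icc 1 (x / m ^ 2),
        ((ArithmeticFunction.moebius l : ℤ) : ℂ) * f (l * m ^ 2) := by
  rw [Finset.sum_congr rfl (fun n hn => by rw [lam_eq x n hn, Finset.sum_mul]), Finset.sum_comm]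
  refine Finset.sum_congr rfl fun m hm => ?_
  rw [Finset.mem_Icc] at hm
  have hm2 : 0 < m ^ 2 := by
    have : 0 < m := hm.1
    positivity
  symm
  have h1 : ∑ n ∈ Icc 1 x, (if m ^ 2 ∣ n then ((ArithmeticFunction.moebius (n / m ^ 2) : ℤ) : ℂ)
      else 0) * f n = ∑ n ∈ (Icc 1 x).filter (fun n => m ^ 2 ∣ n),
        ((ArithmeticFunction.moebius (n / m ^ 2) : ℤ) : ℂ) * f n := by
    rw [Finset.sum_filter]
    refine Finset.sum_congr rfl fun n _ => ?_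
    split_ifs
    · rfl
    · rw [zero_mul]
  rw [h1]
  refine Finset.sum_nbij (fun l => l * m ^ 2) ?_ ?_ ?_ ?_
  · intro l hl
    rw [Finset.mem_Icc] at hl
    rw [Finset.mem_filter, Finset.mem_Icc]
    refine ⟨⟨Nat.mul_pos hl.1 hm2, ?_⟩, Dvd.intro_left l rfl⟩
    exact (Nat.le_div_iff_mul_le hm2).1 hl.2
  · intro l _ l' _ h
    exact Nat.eq_of_mul_eq_mul_right hm2 h
  · intro n hn
    rw [Finset.coe_filter, Set.mem_ofPred_eq, Finset.mem_Icc] at hn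
    obtain ⟨⟨h2, h3⟩, c, hc⟩ := hn
    refine ⟨c, ?_, by simp only [hc]; ring⟩
    rw [Finset.coe_Icc, Set.mem_Icc]
    refine ⟨?_, ?_⟩
    · rcases Nat.eq_zero_or_pos c with h | h
      · rw [h, mul_zero] at hc; omega
      · exact h
    · rw [Nat.le_div_iff_mul_le hm2, mul_comm, ← hc]
      exact h3
  · intro l _
    rw [Nat.mul_div_cancel l hm2]

/-- the sums over multiples of `m ^ 2` -/
theorem inner (E1 E K : ℕ) : ∃ x0 : ℕ, ∀ x : ℕ, x0 ≤ x → ∀ q : ℕ, 1 ≤ q →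
    (q : ℝ) ≤ Real.log x ^ E1 → ∀ b : ℤ, ∀ β : ℝ, |β - (b : ℝ) / (q : ℝ)| ≤ Real.log x ^ E / x →
    ∀ m : ℕ, 1 ≤ m → (m : ℝ) ≤ Real.log x ^ K →
    ‖∑ l ∈ Icc 1 (x / m ^ 2), ((ArithmeticFunction.moebius l : ℤ) : ℂ) *
      e (((l * m ^ 2 : ℕ) : ℝ) * β)‖ ≤
      2 ^ (2 * E + 2) * x / (m ^ 2 * Real.log x ^ (2 * E + 1)) := by
  set B := max E1 E + 1 with hB
  obtain ⟨N1, hN1⟩ := Pool.Agent.H705R2.MSW.major_of Pool.Agent.H705R2.MSW.swMu (2 * E + 1) B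
  have hlog : ∀ᶠ x : ℕ in Filter.atTop, (Real.log x) ^ (4 * K) ≤ (x : ℝ) := by
    have h1 := (Real.isLittleO_pow_log_id_atTop (n := 4 * K)).bound (show (0:ℝ) < 1 by norm_num)
    have h2 := tendsto_natCast_atTop_atTop (R := ℝ) |>.eventually h1
    filter_upwards [h2] with x hx
    simp only [id_eq, Real.norm_eq_abs, one_mul] at hx
    exact (le_abs_self _).trans (hx.trans (le_of_eq (abs_of_nonneg (by positivity))))
  have hlog2 : ∀ᶠ x : ℕ in Filter.atTop, (2:ℝ) ^ (B + 1) ≤ Real.log x :=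
    (Real.tendsto_log_atTop.comp (tendsto_natCast_atTop_atTop (R := ℝ))).eventually_ge_atTop _
  obtain ⟨X, hX⟩ := (hlog.and hlog2).exists_forall_of_atTop
  refine ⟨max X (N1 ^ 2 + 1), fun x hx q hq hqL b β hβ m hm hmK => ?_⟩
  obtain ⟨g1, g2⟩ := hX x ((le_max_left _ _).trans hx)
  have hxN : N1 ^ 2 + 1 ≤ x := (le_max_right _ _).trans hx
  have hx0 : (0:ℝ) < x := by exact_mod_cast (by omega : 0 < x)
  set L := Real.log x with hL
  have hL2 : (2:ℝ) ≤ L := by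
    refine le_trans ?_ g2
    calc (2:ℝ) = 2 ^ 1 := by norm_num
      _ ≤ 2 ^ (B + 1) := pow_le_pow_right₀ (by norm_num) (by omega)
  have hL0 : 0 < L := by linarith
  have hm0 : (0:ℝ) < m := by exact_mod_cast hm
  have hm2 : 0 < m ^ 2 := by positivity
  -- x / m^2 is at least sqrt x
  have hs : Real.sqrt x ≤ x / (m:ℝ) ^ 2 := by
    rw [le_div_iff₀ (by positivity)]
    have h1 : (m:ℝ) ^ 2 ≤ Real.sqrt x := by
      apply Real.le_sqrt_of_sq_le
      calc ((m:ℝ) ^ 2) ^ 2 = (m:ℝ) ^ 4 := by ring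
        _ ≤ (L ^ K) ^ 4 := pow_le_pow_left₀ hm0.le hmK 4
        _ = L ^ (4 * K) := by rw [← pow_mul, mul_comm]
        _ ≤ x := g1
    calc Real.sqrt x * (m:ℝ) ^ 2 ≤ Real.sqrt x * Real.sqrt x :=
          mul_le_mul_of_nonneg_left h1 (Real.sqrt_nonneg _)
      _ = x := Real.mul_self_sqrt hx0.le
  set N : ℕ := x / m ^ 2 + 1 with hN
  have hNlo : x / (m:ℝ) ^ 2 ≤ N := by
    have := Nat.lt_floor_add_one (((x:ℝ) / ((m ^ 2 : ℕ) : ℝ)))
    rw [Nat.floor_div_natCast, Nat.floor_natCast] at this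
    rw [hN]; push_cast at this ⊢
    linarith
  have h1x : 1 ≤ x / (m:ℝ) ^ 2 := by
    refine le_trans ?_ hs
    rw [Real.one_le_sqrt]
    exact_mod_cast (by omega : 1 ≤ x)
  have hNhi : (N:ℝ) ≤ 2 * (x / (m:ℝ) ^ 2) := by
    have : ((x / m ^ 2 : ℕ) : ℝ) ≤ (x:ℝ) / ((m ^ 2 : ℕ) : ℝ) := Nat.cast_div_le
    rw [hN]; push_cast at this ⊢
    linarith
  have hN0 : (0:ℝ) < N := by linarith
  have hsN : Real.sqrt x ≤ N := hs.trans hNlo
  have hNN1 : N1 ≤ N := by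
    have h1 : (N1:ℝ) ≤ Real.sqrt x := by
      apply Real.le_sqrt_of_sq_le
      exact_mod_cast (by omega : N1 ^ 2 ≤ x)
    exact_mod_cast h1.trans hsN
  have hlogN : L / 2 ≤ Real.log N := by
    rw [hL, ← Real.log_sqrt hx0.le]
    exact Real.log_le_log (Real.sqrt_pos.2 hx0) hsN
  have hB2 : (2:ℝ) * L ^ (max E1 E) ≤ (Real.log N) ^ B := by
    calc (2:ℝ) * L ^ (max E1 E) = (2 ^ (B + 1) / 2 ^ B) * L ^ (max E1 E) := by
          rw [pow_succ]; field_simp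
      _ ≤ (L / 2 ^ B) * L ^ (max E1 E) := by gcongr
      _ = (L / 2) ^ B := by rw [div_pow, hB]; ring
      _ ≤ _ := pow_le_pow_left₀ (by positivity) hlogN _
  have hL1 : 1 ≤ L := by linarith
  have hqN : (q:ℝ) ≤ (Real.log N) ^ B := by
    have h1 : L ^ E1 ≤ L ^ (max E1 E) := pow_le_pow_right₀ hL1 (le_max_left _ _)
    have h2 : 0 ≤ L ^ (max E1 E) := by positivity
    linarith
  have hαN : |(m:ℝ) ^ 2 * β - (((m ^ 2 : ℕ) * b : ℤ) : ℝ) / q| ≤ (Real.log N) ^ B / N := by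
    have h1 : (m:ℝ) ^ 2 * β - (((m ^ 2 : ℕ) * b : ℤ) : ℝ) / q = (m:ℝ) ^ 2 * (β - b / q) := by
      push_cast; ring
    rw [h1, abs_mul, abs_of_nonneg (by positivity : (0:ℝ) ≤ (m:ℝ) ^ 2), le_div_iff₀ hN0]
    have h2 : L ^ E ≤ L ^ (max E1 E) := pow_le_pow_right₀ hL1 (le_max_right _ _)
    calc (m:ℝ) ^ 2 * |β - b / q| * N ≤ (m:ℝ) ^ 2 * (L ^ E / x) * (2 * (x / (m:ℝ) ^ 2)) := by
          gcongr
      _ = 2 * L ^ E := by field_simp
      _ ≤ 2 * L ^ (max E1 E) := by linarith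
      _ ≤ _ := hB2
  have hmain := hN1 N hNN1 q hq hqN ((m ^ 2 : ℕ) * b) ((m:ℝ) ^ 2 * β) hαN
  have hsum : ∑ l ∈ Icc 1 (x / m ^ 2), ((ArithmeticFunction.moebius l : ℤ) : ℂ) *
      e (((l * m ^ 2 : ℕ) : ℝ) * β) =
      ∑ n ∈ Finset.range N, ((ArithmeticFunction.moebius n : ℤ) : ℂ) *
        Complex.exp (2 * Real.pi * Complex.I * n * (((m:ℝ) ^ 2 * β : ℝ) : ℂ)) := by
    rw [hN, Finset.range_eq_Ico, Finset.sum_eq_sum_Ico_succ_bot (Nat.succ_pos _)]
    rw [ArithmeticFunction.map_zero, Int.cast_zero, zero_mul, zero_add]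
    refine Finset.sum_congr ?_ fun l _ => ?_
    · ext l
      simp only [Finset.mem_Icc, Finset.mem_Ico]
      omega
    · congr 1
      unfold e
      congr 1
      push_cast
      ring
  rw [hsum]
  refine hmain.trans ?_
  have hA : (L / 2) ^ (2 * E + 1) ≤ (Real.log N) ^ (2 * E + 1) :=
    pow_le_pow_left₀ (by positivity) hlogN _
  calc (N:ℝ) / (Real.log N) ^ (2 * E + 1) ≤ (2 * (x / (m:ℝ) ^ 2)) / (L / 2) ^ (2 * E + 1) := by
        gcongr
    _ = 2 ^ (2 * E + 2) * x / (m ^ 2 * L ^ (2 * E + 1)) := by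
        rw [div_pow]; field_simp; ring

theorem mu_fourier (E1 E : ℕ) : ∃ x0 : ℕ, ∀ x : ℕ, x0 ≤ x → ∀ q : ℕ, 1 ≤ q →
    (q : ℝ) ≤ Real.log x ^ E1 → ∀ b : ℤ, ∀ β : ℝ, |β - (b : ℝ) / (q : ℝ)| ≤ Real.log x ^ E / x →
    ‖∑ n ∈ Icc 1 x, ((ArithmeticFunction.moebius n : ℤ) : ℂ) * e (n * β)‖ ≤
      x / Real.log x ^ (2 * E) := by
  obtain ⟨x0, h0⟩ := inner E1 E 0
  have hlog2 : ∀ᶠ x : ℕ in Filter.atTop, (2:ℝ) ^ (2 * E + 2) ≤ Real.log x :=
    (Real.tendsto_log_atTop.comp (tendsto_natCast_atTop_atTop (R := ℝ))).eventually_ge_atTop _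
  obtain ⟨X, hX⟩ := hlog2.exists_forall_of_atTop
  refine ⟨max x0 X, fun x hx q hq hqL b β hβ => ?_⟩
  have h1 := h0 x ((le_max_left _ _).trans hx) q hq hqL b β hβ 1 le_rfl (by simp)
  have h2 := hX x ((le_max_right _ _).trans hx)
  simp only [one_pow, Nat.div_one, mul_one, Nat.cast_one, one_mul] at h1
  refine h1.trans ?_
  have hL0 : 0 < Real.log x := lt_of_lt_of_le (by positivity) h2
  rw [pow_succ (Real.log x), mul_comm (Real.log (x:ℝ) ^ (2 * E)), ← div_div]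
  apply div_le_div_of_nonneg_right _ (by positivity)
  rw [div_le_iff₀ hL0, mul_comm]
  exact mul_le_mul_of_nonneg_left h2 (Nat.cast_nonneg x)

theorem lam_fourier (E1 E : ℕ) : ∃ x0 : ℕ, ∀ x : ℕ, x0 ≤ x → ∀ q : ℕ, 1 ≤ q →
    (q : ℝ) ≤ Real.log x ^ E1 → ∀ b : ℤ, ∀ β : ℝ, |β - (b : ℝ) / (q : ℝ)| ≤ Real.log x ^ E / x →
    ‖∑ n ∈ Icc 1 x, ((-1 : ℂ) ^ (ArithmeticFunction.cardFactors n)) * e (n * β)‖ ≤
      x / Real.log x ^ (2 * E) := by
  obtain ⟨x0, h0⟩ := inner E1 E (2 * E + 1)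
  have hlog2 : ∀ᶠ x : ℕ in Filter.atTop, (2:ℝ) ^ (2 * E + 3) + 2 ≤ Real.log x :=
    (Real.tendsto_log_atTop.comp (tendsto_natCast_atTop_atTop (R := ℝ))).eventually_ge_atTop _
  obtain ⟨X, hX⟩ := hlog2.exists_forall_of_atTop
  refine ⟨max x0 X, fun x hx q hq hqL b β hβ => ?_⟩
  have h1 := h0 x ((le_max_left _ _).trans hx) q hq hqL b β hβ
  have h2 := hX x ((le_max_right _ _).trans hx)
  set L := Real.log x with hL
  have hL0 : 0 < L := lt_of_lt_of_le (by positivity) h2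
  rw [lam_sum x (fun n => e (n * β))]
  refine (norm_sum_le _ _).trans ?_
  have hpt : ∀ m ∈ Icc 1 x, ‖∑ l ∈ Icc 1 (x / m ^ 2), ((ArithmeticFunction.moebius l : ℤ) : ℂ) *
      e (((l * m ^ 2 : ℕ) : ℝ) * β)‖ ≤
      (2 ^ (2 * E + 2) * x / L ^ (2 * E + 1)) * ((m:ℝ) ^ 2)⁻¹ +
        x * (if L ^ (2 * E + 1) < m then ((m:ℝ) ^ 2)⁻¹ else 0) := by
    intro m hm
    rw [Finset.mem_Icc] at hm
    have hm0 : (0:ℝ) < m := by exact_mod_cast hm.1
    split_ifs with hmL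
    · have ht : ‖∑ l ∈ Icc 1 (x / m ^ 2), ((ArithmeticFunction.moebius l : ℤ) : ℂ) *
          e (((l * m ^ 2 : ℕ) : ℝ) * β)‖ ≤ x * ((m:ℝ) ^ 2)⁻¹ := by
        refine (norm_sum_le _ _).trans ?_
        calc ∑ l ∈ Icc 1 (x / m ^ 2), ‖((ArithmeticFunction.moebius l : ℤ) : ℂ) *
              e (((l * m ^ 2 : ℕ) : ℝ) * β)‖ ≤ ∑ l ∈ Icc 1 (x / m ^ 2), (1:ℝ) := by
              refine Finset.sum_le_sum fun l _ => ?_
              rw [norm_mul]
              have h3 : ‖e (((l * m ^ 2 : ℕ) : ℝ) * β)‖ = 1 := by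
                unfold e; exact Complex.norm_exp_ofReal_mul_I _
              rw [h3, mul_one, Complex.norm_intCast]
              exact_mod_cast ArithmeticFunction.abs_moebius_le_one
          _ = ((x / m ^ 2 : ℕ) : ℝ) := by simp
          _ ≤ (x:ℝ) / ((m ^ 2 : ℕ) : ℝ) := Nat.cast_div_le
          _ = x * ((m:ℝ) ^ 2)⁻¹ := by push_cast; rw [div_eq_mul_inv]
      have : 0 ≤ (2 ^ (2 * E + 2) * x / L ^ (2 * E + 1)) * ((m:ℝ) ^ 2)⁻¹ := by positivity
      linarith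
    · have h3 := h1 m hm.1 (not_lt.1 hmL)
      rw [mul_zero, add_zero]
      refine h3.trans (le_of_eq ?_)
      field_simp
  refine (Finset.sum_le_sum hpt).trans ?_
  rw [Finset.sum_add_distrib, ← Finset.mul_sum, ← Finset.mul_sum]
  have hs1 : ∑ m ∈ Icc 1 x, ((m:ℝ) ^ 2)⁻¹ ≤ 2 := by
    have h3 := sum_Ioo_inv_sq_le (α := ℝ) 0 (x + 1)
    have h4 : Finset.Ioo 0 (x + 1) = Icc 1 x := by
      ext l; simp [Finset.mem_Icc, Finset.mem_Ioo]; omega
    rw [h4] at h3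
    simpa using h3
  have hs2 : ∑ m ∈ Icc 1 x, (if L ^ (2 * E + 1) < m then ((m:ℝ) ^ 2)⁻¹ else 0) ≤
      2 / L ^ (2 * E + 1) := by
    rw [← Finset.sum_filter]
    set T := ⌊L ^ (2 * E + 1)⌋₊ with hT
    have h3 := sum_Ioo_inv_sq_le (α := ℝ) T (x + 1)
    have h4 : (Icc 1 x).filter (fun m : ℕ => L ^ (2 * E + 1) < m) ⊆ Finset.Ioo T (x + 1) := by
      intro m hm
      rw [Finset.mem_filter, Finset.mem_Icc] at hm
      rw [Finset.mem_Ioo]
      refine ⟨?_, by omega⟩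
      have h5 : (T:ℝ) ≤ L ^ (2 * E + 1) := Nat.floor_le (by positivity)
      exact_mod_cast lt_of_le_of_lt h5 hm.2
    refine (Finset.sum_le_sum_of_subset_of_nonneg h4 (fun i _ _ => by positivity)).trans ?_
    refine h3.trans ?_
    have h5 : L ^ (2 * E + 1) ≤ (T:ℝ) + 1 := (Nat.lt_floor_add_one _).le
    exact div_le_div_of_nonneg_left (by norm_num) (by positivity) h5
  calc 2 ^ (2 * E + 2) * x / L ^ (2 * E + 1) * ∑ m ∈ Icc 1 x, ((m:ℝ) ^ 2)⁻¹ +
        x * ∑ m ∈ Icc 1 x, (if L ^ (2 * E + 1) < m then ((m:ℝ) ^ 2)⁻¹ else 0) ≤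
      2 ^ (2 * E + 2) * x / L ^ (2 * E + 1) * 2 + x * (2 / L ^ (2 * E + 1)) := by
        gcongr
    _ = (x / L ^ (2 * E)) * ((2 ^ (2 * E + 3) + 2) / L) := by
        rw [pow_succ L]; field_simp; ring
    _ ≤ (x / L ^ (2 * E)) * 1 := by
        apply mul_le_mul_of_nonneg_left _ (by positivity)
        rw [div_le_one hL0]
        exact h2
    _ = x / L ^ (2 * E) := mul_one _

end Pool.Agent.H534R2.BH
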